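import Pool.Agent.Helper42.DB.Goals2

set_option autoImplicit false

/-! Packet CEG: counting centrally singular words, two families. -/

namespace Pool.Agent.Helper42.DB.PkCEG

open Set Filter Topology

variable {S : Sys}

lemma ordc (hI : G_INTF S) (i : S.ι) (x : ℝ → St S) (Λ : Set ℝ) (hΛ : Λ.OrdConnected)
    (hi : ∀ l, (x l).i = i) (hok : ∀ l ∈ Λ, (x l).Ok) (hcu : Continuous fun l => (x l).u)
    (hcφ : Continuous fun l => (x l).φ)
    (hf : ∀ p q, p < q → IncF p q x ∨ DecF p q x) (n : ℕ) (f : ℕ → S.ι) :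
    {l : ℝ | l ∈ Λ ∧ ∃ z : ℕ → St S, Cyl n f z ∧ z 0 = x l}.OrdConnected := by
  rw [Set.ordConnected_iff]
  rintro l0 ⟨h0, z0, hz0, e0⟩ l1 ⟨h1, z1, hz1, e1⟩ hle
  rcases hle.eq_or_lt with rfl | hlt
  · intro l hl
    have : l = l0 := le_antisymm hl.2 hl.1
    rw [this]
    exact ⟨h0, z0, hz0, e0⟩
  have hf0 : i = f 0 := by
    rw [← hi l0, ← e0]
    exact hz0.2 0 (Nat.zero_le _)
  have hfam : Fam (f 0) l0 l1 x := by
    refine ⟨fun l _ => (hi l).trans hf0, fun l hl => hok l (hΛ.out h0 h1 hl),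
      hcu.continuousOn, hcφ.continuousOn⟩
  obtain ⟨Z, hZ, -, -⟩ := hI n f l0 l1 x z0 z1 hlt hfam (hf l0 l1 hlt) hz0 hz1 e0 e1
  intro l hl
  exact ⟨hΛ.out h0 h1 hl, Z l, (hZ l hl).1, (hZ l hl).2⟩

lemma cnt_mono {n : ℕ} {P Q : (ℕ → S.ι) → Prop} (h : ∀ w, P w → Q w) :
    cnt n P ≤ cnt n Q := by
  unfold cnt
  exact Set.ncard_le_ncard (Set.image_mono fun w hw => h w hw) (Set.toFinite _)

theorem thm (S : Sys) : G_FLB S → G_INTF S → G_FAMPAIR S → G_CE S ∧ G_CG S := by
  intro _ hI hF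
  constructor
  · intro a i u0 hu0
    have hx := hF a (fun l => ⟨i, u0, l⟩) (Ioo (-(Real.pi / 2)) (Real.pi / 2))
      (ordc hI i (fun l => (⟨i, u0, l⟩ : St S)) _ ordConnected_Ioo (fun _ => rfl)
        (fun l hl => ⟨hu0, abs_lt.2 ⟨hl.1, hl.2⟩⟩) continuous_const continuous_id
        (fun p q hpq => Or.inl ⟨fun _ _ _ _ _ => le_refl _,
          fun l _ l' _ hll => by simp only [St.th]; linarith,
          fun l _ l' _ hll => Or.inr (by simp only [St.th]; linarith)⟩) (a + 1))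
      (ordc hI i (fun l => (⟨i, u0, l⟩ : St S).rev) _ ordConnected_Ioo (fun _ => rfl)
        (fun l hl => (St.rev_Ok _).2 ⟨hu0, abs_lt.2 ⟨hl.1, hl.2⟩⟩) continuous_const
        continuous_neg
        (fun p q hpq => Or.inr ⟨fun _ _ _ _ _ => le_refl _,
          fun l _ l' _ hll => by simp only [St.rev_th, St.bk]; linarith,
          fun l _ l' _ hll => Or.inr (by simp only [St.rev_th, St.bk]; linarith)⟩) a)
    refine le_trans (cnt_mono ?_) hx
    rintro w ⟨hw, z, hz, hu⟩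
    have hok := hz.1.1 a (by omega)
    refine ⟨(z a).φ, ⟨(abs_lt.1 hok.2).1, (abs_lt.1 hok.2).2⟩, z, hz, ?_⟩
    have hi : (z a).i = i := (hz.2 a (by omega)).trans hw
    ext
    · exact hi
    · exact hu
    · rfl
  · intro a i φ0 hφ0
    have hx := hF a (fun l => ⟨i, l, φ0⟩) (Ioo (S.a i) (S.b i))
      (ordc hI i (fun l => (⟨i, l, φ0⟩ : St S)) _ ordConnected_Ioo (fun _ => rfl)
        (fun l hl => ⟨hl, hφ0⟩) continuous_id continuous_const
        (fun p q hpq => Or.inl ⟨fun _ _ _ _ hll => hll,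
          fun l _ l' _ hll => by simp only [St.th]; linarith,
          fun l _ l' _ hll => Or.inl hll⟩) (a + 1))
      (ordc hI i (fun l => (⟨i, l, φ0⟩ : St S).rev) _ ordConnected_Ioo (fun _ => rfl)
        (fun l hl => (St.rev_Ok _).2 ⟨hl, hφ0⟩) continuous_id
        (continuous_const (y := -φ0))
        (fun p q hpq => Or.inl ⟨fun _ _ _ _ hll => hll,
          fun l _ l' _ hll => by simp only [St.rev_th, St.bk]; linarith,
          fun l _ l' _ hll => Or.inl hll⟩) a)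
    refine le_trans (cnt_mono ?_) hx
    rintro w ⟨hw, z, hz, hu⟩
    have hok := hz.1.1 a (by omega)
    have hi : (z a).i = i := (hz.2 a (by omega)).trans hw
    refine ⟨(z a).u, ?_, z, hz, ?_⟩
    · have := hok.1
      rwa [hi] at this
    · ext
      · exact hi
      · rfl
      · exact hu

end Pool.Agent.Helper42.DB.PkCEG
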